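import Pool.Agent.R343.HFH6

/-!
# Hereditary frequent hypercyclicity does not imply hereditary U-frequent hypercyclicity

The operator is a bilateral weighted backward shift on the complex Banach space `c₀(ℤ)`. The
construction and the proof on paper are due to helper286.
-/

set_option autoImplicit false

namespace Pool.Agent.Results.MP_5ec4bc_an.FrequentNotUFrequent

open Filter Topology
open scoped ZeroAtInfty

/-- The lower density `liminf_N |A ∩ {1, …, N}| / N`. -/
noncomputable def lowerDensity (A : Set ℕ) : ℝ :=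
  open Classical in
  liminf (fun N : ℕ => (((Finset.Icc 1 N).filter (· ∈ A)).card : ℝ) / N) atTop

/-- The upper density `limsup_N |A ∩ {1, …, N}| / N`. -/
noncomputable def upperDensity (A : Set ℕ) : ℝ :=
  open Classical in
  limsup (fun N : ℕ => (((Finset.Icc 1 N).filter (· ∈ A)).card : ℝ) / N) atTop

/-- The visit set `{n : T^n x ∈ V}`. -/
def visits {X : Type} [NormedAddCommGroup X] [NormedSpace ℂ X] (T : X →L[ℂ] X) (x : X)
    (V : Set X) : Set ℕ := {n : ℕ | (T ^ n) x ∈ V}

/-- `T` is hereditarily `F`-hypercyclic: for every countable index set, all nonempty open sets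
`V i` and all members `A i` of `F` there is a vector `x` such that the intersection of the visit
set of `V i` with `A i` belongs to `F` for every `i`. -/
def HereditarilyHypercyclic {X : Type} [NormedAddCommGroup X] [NormedSpace ℂ X]
    (F : Set (Set ℕ)) (T : X →L[ℂ] X) : Prop :=
  ∀ (ι : Type) (_ : Countable ι) (V : ι → Set X) (A : ι → Set ℕ),
    (∀ i, IsOpen (V i)) → (∀ i, (V i).Nonempty) → (∀ i, A i ∈ F) →
    ∃ x : X, ∀ i, visits T x (V i) ∩ A i ∈ F

open Pool.Agent.R805.PropA (cnt ratio_le ratio_nonneg)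

lemma lower_eq (A : Set ℕ) : lowerDensity A = liminf (fun N : ℕ => (cnt A N : ℝ) / N) atTop := rfl

lemma lower_pos_iff (A : Set ℕ) :
    0 < lowerDensity A ↔ ∃ g N0 : ℕ, ∀ N, N0 ≤ N → N ≤ 2 ^ g * cnt A N := by
  rw [lower_eq]
  constructor
  · intro h
    have hbd : IsBoundedUnder (· ≥ ·) atTop (fun N : ℕ => (cnt A N : ℝ) / N) :=
      isBoundedUnder_of ⟨0, fun N => ratio_nonneg A N⟩
    have h1 := eventually_lt_of_lt_liminf (half_lt_self h) hbd
    set c := liminf (fun N : ℕ => (cnt A N : ℝ) / N) atTop / 2 with hc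
    have hc0 : 0 < c := half_pos h
    obtain ⟨g, hg⟩ := pow_unbounded_of_one_lt (1 / c) (show (1 : ℝ) < 2 by norm_num)
    obtain ⟨N0, hN0⟩ := eventually_atTop.1 h1
    refine ⟨g, N0 + 1, fun N hN => ?_⟩
    have h2 := hN0 N (by omega)
    have hN' : (0 : ℝ) < N := by
      have : 0 < N := by omega
      exact_mod_cast this
    rw [lt_div_iff₀ hN'] at h2
    rw [div_lt_iff₀ hc0] at hg
    have h3 : (N : ℝ) ≤ 2 ^ g * cnt A N := by
      calc (N : ℝ) = 1 * N := (one_mul _).symm
        _ ≤ (2 ^ g * c) * N := by gcongr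
        _ = 2 ^ g * (c * N) := by ring
        _ ≤ 2 ^ g * cnt A N := by gcongr
    exact_mod_cast h3
  · rintro ⟨g, N0, h⟩
    have hcob : IsCoboundedUnder (· ≥ ·) atTop (fun N : ℕ => (cnt A N : ℝ) / N) :=
      isCoboundedUnder_ge_of_le atTop (fun N => ratio_le A N)
    refine lt_of_lt_of_le (show (0 : ℝ) < 1 / 2 ^ g by positivity) (le_liminf_of_le hcob ?_)
    filter_upwards [eventually_ge_atTop (N0 + 1)] with N hN
    have hN' : (0 : ℝ) < N := by
      have : 0 < N := by omega
      exact_mod_cast this
    have h1 : (N : ℝ) ≤ 2 ^ g * cnt A N := by exact_mod_cast h N (by omega)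
    rw [div_le_div_iff₀ (by positivity) hN']
    linarith

/-- There are a separable infinite-dimensional complex Banach space `X` (namely `c₀(ℤ)`) and a
bounded operator `T` on `X` which is hereditarily frequently hypercyclic, but not hereditarily
U-frequently hypercyclic. -/
theorem result : ∃ (X : Type) (_ : NormedAddCommGroup X) (_ : NormedSpace ℂ X)
    (_ : CompleteSpace X) (_ : TopologicalSpace.SeparableSpace X) (T : X →L[ℂ] X),
    ¬ FiniteDimensional ℂ X ∧
    HereditarilyHypercyclic {A | 0 < lowerDensity A} T ∧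
    ¬ HereditarilyHypercyclic {A | 0 < upperDensity A} T := by
  refine ⟨C₀(ℤ, ℂ), inferInstance, inferInstance, inferInstance, R343.HFH.separable,
    R343.HFH.T, R343.HFH.not_finite, ?_, ?_⟩
  · intro ι hι V A hV hne hA
    rcases isEmpty_or_nonempty ι with hemp | hnonemp
    · exact ⟨0, fun i => (IsEmpty.false i).elim⟩
    · obtain ⟨f, hf⟩ := exists_surjective_nat ι
      obtain ⟨x, hx⟩ := R343.HFH.pos (fun n => V (f n)) (fun n => hV _) (fun n => hne _)
        (fun n => A (f n)) (fun n => (lower_pos_iff _).1 (hA (f n)))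
      refine ⟨x, fun i => ?_⟩
      obtain ⟨n, rfl⟩ := hf i
      exact (lower_pos_iff _).2 (hx n)
  · intro h
    obtain ⟨x, hx⟩ := h ℕ inferInstance R343.HFH.VV R343.HFH.AA
      (by rintro (_ | q) <;> exact Metric.isOpen_ball)
      (by
        rintro (_ | q)
        · exact ⟨_, Metric.mem_ball_self (by norm_num)⟩
        · exact ⟨_, Metric.mem_ball_self (by positivity)⟩)
      (by
        rintro (_ | q)
        · exact R343.HFH.ud_univ
        · exact R343.HFH.ud_Astar)
    exact R343.HFH.neg x hx

end Pool.Agent.Results.MP_5ec4bc_an.FrequentNotUFrequent
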